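import Pool.Agent.Lib_MP_79ab39_ag.Main2

/-!
Vojta's conjecture on canonical degrees (MP_79ab39_ag), Q1, negated form on a surface of Kodaira
dimension one: there is a smooth projective surface `X` with `h^0(K_X) ≥ 2` such that for all real
`A < 14/3` and `B` there is a curve `C` on `X` of geometric genus `g` with
`K_X · C > A (g - 1) + B`.
-/

set_option autoImplicit false

namespace Pool.Agent.Results.MP_79ab39_ag.KodairaDimensionOne

open MP79ab39

theorem result : ∃ (c : ℕ) (X : CISurface c), X.TwoCanonicalSections ∧
    ∀ A B : ℝ, A < 14 / 3 → ∃ C : DoubleTorusCurve X,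
      A * ((C.genus : ℝ) - 1) + B < (C.canonicalDegree : ℝ) :=
  main2

end Pool.Agent.Results.MP_79ab39_ag.KodairaDimensionOne
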