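import Pool.Agent.Lib_MP_79ab39_r.CurveR

/-!
Vojta's conjecture on canonical degrees (MP_79ab39_ag), Q1, negated form on a rational surface and
for rational curves: there is a smooth projective rational surface `X` such that for all real `A`,
`B` there is a rational curve `C` on `X` (geometric genus `g = 0`) with
`K_X · C > A (g - 1) + B`.
-/

set_option autoImplicit false

namespace Pool.Agent.Results.MP_79ab39_ag.RationalCurves

open MP79ab39

theorem result : ∃ (c : ℕ) (X : CISurface c), X.IsRational ∧
    ∀ A B : ℝ, ∃ C : RationalCurve X,
      A * ((0 : ℝ) - 1) + B < (C.canonicalDegree : ℝ) :=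
  Rat.main

end Pool.Agent.Results.MP_79ab39_ag.RationalCurves
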