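import Pool.Agent.Lib_MP_79ab39_ag.Main

/-!
Vojta's conjecture on canonical degrees (MP_79ab39_ag), Q1, negated form: there is a smooth
projective surface `X` such that for all real `A`, `B` there is a curve `C` on `X` of geometric
genus `g = 1` with `K_X · C > A (g - 1) + B`.
-/

set_option autoImplicit false

namespace Pool.Agent.Results.MP_79ab39_ag.UnboundedGenusOne

open MP79ab39

theorem result : ∃ (c : ℕ) (X : CISurface c), ∀ A B : ℝ, ∃ C : TorusCurve X,
    C.genus = 1 ∧ A * ((C.genus : ℝ) - 1) + B < (C.canonicalDegree : ℝ) :=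
  main

end Pool.Agent.Results.MP_79ab39_ag.UnboundedGenusOne
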